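import Pool.Agent.Helper58.SF.StG

/-! # Project SF, module FAC: the monotone maps between the discs -/

set_option autoImplicit false

namespace Pool.Agent.Helper60.SF

open Set Topology Pool.Agent.Helper13.TR Pool.Agent.Helper58.SF

private lemma lev_mem {a' b u c : ℝ} (hab : a' < b) (hu0 : 0 ≤ u) (hu1 : u ≤ 1) (hc0 : 0 ≤ c) (hc1 : c ≤ 1) :
    a' ≤ b - u * c * (b - a') ∧ b - u * c * (b - a') ≤ b := by
  have h1 : 0 ≤ u * c := mul_nonneg hu0 hc0
  have h2 : u * c ≤ 1 := by nlinarith
  constructor
  · nlinarith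
  · nlinarith

private lemma lev_mono {a' b u u' c : ℝ} (hab : a' < b) (huu : u ≤ u') (hc0 : 0 ≤ c) :
    b - u' * c * (b - a') ≤ b - u * c * (b - a') := by
  have h1 : u * c ≤ u' * c := mul_le_mul_of_nonneg_right huu hc0
  nlinarith

theorem hFAC : StFAB → StCNA → StBEX → StFLW → StFAC := by
  intro hFAB hCNA hBEX hFLW P _ r R dg x₀ a a' b V0 V' C2 Jp zJ chi O1 D
  obtain ⟨F1, F2, F3, ⟨K₀, hK, hKr, hKD⟩, F5, F6⟩ := hFAB P r R dg x₀ a a' b V0 V' C2 Jp zJ chi O1 D
  have SBh : SB P r R dg := D.gb.toSB
  have fl : Flow P r R := SBh.box.toFlow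
  have ha : 0 < a := D.ha
  have haa : a < a' := D.haa
  have hab : a' < b := lt_trans D.hax D.hxb
  have hb1 : b < 1 := D.hb
  obtain ⟨L1, -⟩ := hFLW P r R fl
  obtain ⟨B1, -⟩ := hBEX P r R dg SBh
  have cna := hCNA P r R dg SBh
  have c01 := D.chi01
  -- points off C2
  have off : ∀ y : P, r y = b → R a y ∉ C2 → chi (R a y) = 0 := by
    intro y hy hC
    refine D.chi0 _ ?_ hC
    rw [fl.rR a y ha, hy]
    exact min_eq_left (by linarith)
  constructor
  · intro u u' hu0 huu hu1 q hq
    have hu'0 : 0 ≤ u' := le_trans hu0 huu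
    have hu1' : u ≤ 1 := le_trans huu hu1
    have lm : ∀ w : ℝ, 0 ≤ w → w ≤ 1 → ∀ y : P, a' ≤ b - w * chi (R a y) * (b - a') ∧
        b - w * chi (R a y) * (b - a') ≤ b := fun w h0 h1 y =>
      lev_mem hab h0 h1 (c01 _).1 (c01 _).2
    have lmono : ∀ y : P, b - u' * chi (R a y) * (b - a') ≤ b - u * chi (R a y) * (b - a') :=
      fun y => lev_mono hab huu (c01 _).1
    have mu : u ∈ Icc (0 : ℝ) 1 := ⟨hu0, hu1'⟩
    have mu' : u' ∈ Icc (0 : ℝ) 1 := ⟨hu'0, hu1⟩
    have qc : Continuous q := by
      have e : q = (fun p : ℝ × P => R p.1 p.2) ∘ fun y => (b - u' * chi (R a y) * (b - a'), y) := by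
        funext y
        rw [hq y]
        rfl
      rw [e]
      refine fl.Rc.comp_continuous ?_ ?_
      · have h1 : Continuous fun y => chi (R a y) := D.chic.comp (L1 a ha)
        exact ((continuous_const.sub ((continuous_const.mul h1).mul continuous_const))).prodMk continuous_id
      · intro y
        have := (lm u' hu'0 hu1 y).1
        show 0 < b - u' * chi (R a y) * (b - a')
        linarith
    -- basic facts on Sg u
    have qa : ∀ y : P, R a (q y) = R a y := by
      intro y
      rw [hq y]
      exact fl.RR a _ y ha (by have := (lm u' hu'0 hu1 y).1; linarith)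
    have qr : ∀ y ∈ Sg r R chi a a' b u, r (q y) = b - u' * chi (R a y) * (b - a') := by
      intro y hy
      have hy' : r y = b - u * chi (R a y) * (b - a') := hy
      rw [hq y, fl.rR _ y (by have := (lm u' hu'0 hu1 y).1; linarith)]
      exact min_eq_left (by rw [hy']; exact lmono y)
    have qS : ∀ y ∈ Sg r R chi a a' b u, q y ∈ Sg r R chi a a' b u' := by
      intro y hy
      show r (q y) = b - u' * chi (R a (q y)) * (b - a')
      rw [qa y]
      exact qr y hy
    have qoff : ∀ y : P, r y = b → R a y ∉ C2 → q y = y := by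
      intro y hy hC
      rw [hq y, off y hy hC]
      have : b - u' * 0 * (b - a') = b := by ring
      rw [this]
      exact fl.Rid b y hy.le
    have key : ∀ v ∈ Sg r R chi a a' b u', ∀ y : P, y ∈ Up r R v → r y = b - u * chi (R a v) * (b - a') →
        R a y = R a v ∧ y ∈ Sg r R chi a a' b u ∧ q y = v := by
      intro v hv y hy hry
      have hv' : r v = b - u' * chi (R a v) * (b - a') := hv
      have h1 : R a y = R a v := by
        have h2 : R (r v) y = v := hy.2
        have h3 := fl.RR a (r v) y ha (by rw [hv']; have := (lm u' hu'0 hu1 v).1; linarith)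
        rw [h2] at h3
        exact h3.symm
      refine ⟨h1, ?_, ?_⟩
      · show r y = b - u * chi (R a y) * (b - a')
        rw [h1]
        exact hry
      · rw [hq y, h1, ← hv']
        exact hy.2
    refine ⟨qc, ?_, ?_, ?_⟩
    · apply Subset.antisymm
      · rintro _ ⟨y, hy, rfl⟩
        by_cases hC : R a y ∈ C2
        · exact F1 u' mu' (q y) (qS y hy.1) (by rw [qa y]; exact hC)
        · obtain ⟨h1, h2⟩ := F2 u mu y hy hC
          rw [qoff y h1 hC]
          exact h2 u' mu'
      · intro v hv
        by_cases hC : R a v ∈ C2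
        · have hvS : v ∈ Sg r R chi a a' b u' := hv.1
          have hv' : r v = b - u' * chi (R a v) * (b - a') := hvS
          obtain ⟨y, hyU, hyr⟩ := B1 v (b - u * chi (R a v) * (b - a')) (by rw [hv']; exact lmono v)
            (lt_of_le_of_lt (lm u hu0 hu1' v).2 hb1)
          obtain ⟨k1, k2, k3⟩ := key v hvS y hyU hyr
          exact ⟨y, F1 u mu y k2 (by rw [k1]; exact hC), k3⟩
        · obtain ⟨h1, h2⟩ := F2 u' mu' v hv hC
          exact ⟨v, h2 u mu, qoff v h1 hC⟩
    · intro v
      by_cases hC : R a v ∈ C2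
      · by_cases hvS : v ∈ Sg r R chi a a' b u'
        · have hv' : r v = b - u' * chi (R a v) * (b - a') := hvS
          have e : Dk r R dg chi a a' b zJ Jp u ∩ q ⁻¹' {v} =
              {y : P | r y = b - u * chi (R a v) * (b - a') ∧ y ∈ Up r R v} := by
            ext y
            constructor
            · rintro ⟨hy, hqy⟩
              have hqy' : q y = v := hqy
              have hyS : r y = b - u * chi (R a y) * (b - a') := hy.1
              have h1 : R a y = R a v := by rw [← hqy', qa y]
              refine ⟨by rw [← h1]; exact hyS, ?_, ?_⟩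
              · rw [hv', hyS, ← h1]
                exact lmono y
              · rw [hv', ← h1, ← hq y]
                exact hqy'
            · rintro ⟨hyr, hyU⟩
              obtain ⟨k1, k2, k3⟩ := key v hvS y hyU hyr
              exact ⟨F1 u mu y k2 (by rw [k1]; exact hC), k3⟩
          rw [e]
          exact cna v _ (by rw [hv']; exact lmono v) (lt_of_le_of_lt (lm u hu0 hu1' v).2 hb1)
        · have e : Dk r R dg chi a a' b zJ Jp u ∩ q ⁻¹' {v} = ∅ := by
            rw [Set.eq_empty_iff_forall_notMem]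
            rintro y ⟨hy, hqy⟩
            have hqy' : q y = v := hqy
            exact hvS (hqy' ▸ qS y hy.1)
          rw [e]
          exact isPreconnected_empty
      · refine Set.Subsingleton.isPreconnected ?_
        have e : ∀ y ∈ Dk r R dg chi a a' b zJ Jp u ∩ q ⁻¹' {v}, y = v := by
          rintro y ⟨hy, hqy⟩
          have hqy' : q y = v := hqy
          have h1 : R a y ∉ C2 := by
            rw [← qa y, hqy']
            exact hC
          obtain ⟨h2, -⟩ := F2 u mu y hy h1
          rw [← hqy', qoff y h2 h1]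
        intro y hy z hz
        rw [e y hy, e z hz]
    · intro y hy
      exact qoff y (D.Jb y hy) (D.Ja y hy).2
  · intro ε hε
    have hcomp : IsCompact (Icc a' b ×ˢ K₀) := isCompact_Icc.prod hK
    have hcont : ContinuousOn (fun p : ℝ × P => R p.1 p.2) (Icc a' b ×ˢ K₀) := by
      refine fl.Rc.mono ?_
      rintro ⟨t, y⟩ ⟨ht, -⟩
      show 0 < t
      exact lt_of_lt_of_le (lt_trans ha haa) ht.1
    have huc := hcomp.uniformContinuousOn_of_continuous hcont
    rw [Metric.uniformContinuousOn_iff] at huc
    obtain ⟨δ, hδ, H⟩ := huc ε hε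
    have hba : 0 < b - a' := by linarith
    refine ⟨δ / (b - a'), div_pos hδ hba, ?_⟩
    intro u u' hu0 huu hu1 hd y hy
    have hu'0 : 0 ≤ u' := le_trans hu0 huu
    have hu1' : u ≤ 1 := le_trans huu hu1
    have hyK : y ∈ K₀ := hKD u ⟨hu0, hu1'⟩ hy
    have hyS : r y = b - u * chi (R a y) * (b - a') := hy.1
    have l1 := lev_mem hab hu'0 hu1 (c01 (R a y)).1 (c01 (R a y)).2
    have h := H (b - u' * chi (R a y) * (b - a'), y) ⟨⟨l1.1, l1.2⟩, hyK⟩ (r y, y) ⟨⟨(hKr y hyK).1, (hKr y hyK).2⟩, hyK⟩ ?_
    · have e : R (r y) y = y := fl.Rid (r y) y le_rfl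
      have h' : dist (R (b - u' * chi (R a y) * (b - a')) y) (R (r y) y) < ε := h
      rw [e] at h'
      exact h'
    · rw [Prod.dist_eq]
      simp only [dist_self]
      rw [max_lt_iff]
      refine ⟨?_, hδ⟩
      rw [Real.dist_eq, hyS, abs_lt]
      have c0 := (c01 (R a y)).1
      have c1 := (c01 (R a y)).2
      rw [lt_div_iff₀ hba] at hd
      have h1 : 0 ≤ (u' - u) * (b - a') := mul_nonneg (by linarith) hba.le
      have h2 : (u' - u) * (b - a') * chi (R a y) ≤ (u' - u) * (b - a') := mul_le_of_le_one_right h1 c1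
      have h3 : 0 ≤ (u' - u) * (b - a') * chi (R a y) := mul_nonneg h1 c0
      constructor
      · nlinarith
      · nlinarith

end Pool.Agent.Helper60.SF
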